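import Pool.Agent.H28.PenroseEx1

set_option autoImplicit false

namespace Pool.Agent.Results.MP_8c6d5c_co.DoubleRoot

open Pool.Agent.H28.PenroseDefs

/-- There is a connected binary matroid with nonzero Penrose polynomial divisible by `(λ - 1)^2`. -/
theorem result : ∃ M : BM, Connected M ∧ penrose M ≠ 0 ∧ (Polynomial.X - 1) ^ 2 ∣ penrose M := by
  refine ⟨_, Pool.Agent.H28.PenroseEx1.conn, ?_, ?_⟩ <;> rw [Pool.Agent.H28.PenroseEx1.pen]
  · intro h
    have := congrArg (Polynomial.eval 0) h
    simp at this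
  · exact dvd_mul_right _ _

end Pool.Agent.Results.MP_8c6d5c_co.DoubleRoot
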